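import Mathlib
import Pool.Agent.Work.MP_484fb8_nt.Defs
import Pool.Agent.Work.ChenW.Main
import Pool.Agent.Work.ChenW.Fin

/-!
# Chen's theorem in every subwindow of the primorial intervals, in both arrangements

For every `m ∈ ℰ_{n+1}`, `n` large, and every window `J` of `ℐ_n` of length at least `#(n) / (log #(n))^k`
with `m - J` in `ℐ_n ∪ ℐ_{n+1}` there are many primes `p ∈ J` for which `m - p` is a prime or a product of two
large primes, and as many such numbers `s ∈ J` for which `m - s` is a prime of `𝒫_n ∪ 𝒫_{n+1}`.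
-/

set_option autoImplicit false

open Finset Pool.Agent.Work.MP_484fb8_nt

namespace Pool.Agent.Results.MP_484fb8_nt.ChenWindows

/-- `r` is a prime, or a product of two primes that are both at least `m ^ (1/8)`. -/
def PrimeOrProduct (m r : ℕ) : Prop :=
  r.Prime ∨ ∃ a b : ℕ, a.Prime ∧ b.Prime ∧ (m : ℝ) ^ (1 / 8 : ℝ) ≤ a ∧ (m : ℝ) ^ (1 / 8 : ℝ) ≤ b ∧
    r = a * b

/-- The factor `∏_{p ∣ m, p > 2} (p - 1) / (p - 2) ≥ 1` of the Goldbach singular series. -/
noncomputable def singularFactor (m : ℕ) : ℝ :=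
  ∏ p ∈ m.primeFactors.filter (fun p => 2 < p), (((p : ℝ) - 1) / ((p : ℝ) - 2))

open scoped Classical in
/-- There is an absolute `c > 0` and for every `k` an `n₀` such that for all `n ≥ n₀`, EVERY `m ∈ ℰ_{n+1}` and
EVERY window `J = (a, a + Y]` in `ℐ_n` with `m - J` in `ℐ_n ∪ ℐ_{n+1}` and of length `Y ≥ #(n) / (log #(n))^k`:
at least `c S(m) Y / (log #(n))^2` primes `p ∈ 𝒫_n ∩ J` are such that `m = p + s` with `s ∈ ℐ_n ∪ ℐ_{n+1}` a prime
or a product of two primes `≥ m ^ (1/8)`; and at least as many `s ∈ ℐ_n ∩ J`, primes or products of two primes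
`≥ m ^ (1/8)`, are such that `m = q + s` with a prime `q ∈ 𝒫_n ∪ 𝒫_{n+1}`. -/
theorem result : ∃ c : ℝ, 0 < c ∧ ∀ k : ℕ, ∃ n₀ : ℕ, ∀ n, n₀ ≤ n →
    ∀ m ∈ evensIn (n + 1), ∀ a Y : ℕ, prml (n - 1) ≤ a → a + Y ≤ prml n + 1 →
      a + Y + prml (n - 1) < m → (prml n : ℝ) ≤ Y * (Real.log (prml n)) ^ k →
      c * (singularFactor m * (Y / (Real.log (prml n)) ^ 2)) ≤
        (#{p ∈ primesIn n | p ∈ Ioc a (a + Y) ∧
          ∃ s ∈ primorialInterval n ∪ primorialInterval (n + 1), m = p + s ∧ PrimeOrProduct m s} : ℝ) ∧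
      c * (singularFactor m * (Y / (Real.log (prml n)) ^ 2)) ≤
        (#{s ∈ primorialInterval n | s ∈ Ioc a (a + Y) ∧ PrimeOrProduct m s ∧
          ∃ q ∈ primesIn n ∪ primesIn (n + 1), m = q + s} : ℝ) := by
  have h1 : PrimeOrProduct = Pool.Agent.ChenW.PrimeOrProduct := rfl
  have h2 : singularFactor = Pool.Agent.Chen.SS := rfl
  rw [h1, h2]
  exact Pool.Agent.ChenW.fin Pool.Agent.ChenW.chenW_primorial

end Pool.Agent.Results.MP_484fb8_nt.ChenWindows
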