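import Mathlib
import Pool.Agent.Work.MP_484fb8_nt.Defs
import Pool.Agent.Work.MP_484fb8_nt.Poly.RatPoly
import Pool.Agent.Work.PS.E.POLY2

set_option autoImplicit false

open Finset Pool.Agent.Work.MP_484fb8_nt

namespace Pool.Agent.Results.MP_484fb8_nt.PolynomialPowerSaving

/-- `m` is an exception to Q1 (`m = p + q` with `p ∈ 𝒫_n` and `q ∈ 𝒫_n ∪ 𝒫_{n+1}`), or has fewer than
`#(n)^(1-ε)/8` such representations, or is not a multiple of `r(n)` and has fewer than
`c (m/φ(m)) #(n)/(log #(n))^2` such representations. -/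
def Exceptional (c ε : ℝ) (r : ℕ → ℕ) (n m : ℕ) : Prop :=
  ¬ ((∃ p ∈ primesIn n, ∃ q ∈ primesIn n ∪ primesIn (n + 1), m = p + q) ∧
    1 / 8 * (prml n : ℝ) ^ (1 - ε) ≤ primorialReps n m ∧
    (¬ r n ∣ m → c * ((m : ℝ) / m.totient) * (prml n / (Real.log (prml n)) ^ 2)
      ≤ primorialReps n m))

open scoped Classical in
/-- Power saving for the values of polynomials, in intervals and uniformly in the lower
coefficients. There are `c > 0` and integers `r(1), r(2), …`, which grow faster than every power of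
`log #(n+1)`, such that for every degree `d ≥ 1` there is `η > 0` with the following property. Let
`f ∈ ℚ[x]` be an integer-valued polynomial of degree `d` and leading coefficient `α`, of any sign,
and let `(a, a + K]` be an interval with `K^d ≥ #(n)^(1-η)`. Then all but at most `C K^(1-η)` of the
integers `k` in this interval are such that `f(k)`, if it lies in `ℰ_{n+1}`, is not exceptional;
`C` depends only on `d`, `α` and `ε`. If `f` is fixed and `α > 0` then all but at most `C K^(1-η)` of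
the `k ≤ K` have this property for all `n` together, and for all but at most `C K/(log K)^A` of them
the number of representations is at least `c #(n)/(log #(n))^2`. -/
theorem result : ∃ c : ℝ, 0 < c ∧ ∃ r : ℕ → ℕ,
    (∀ A : ℕ, ∃ C' : ℝ, ∀ n : ℕ, 1 ≤ n → (Real.log (prml (n + 1))) ^ A ≤ C' * r n) ∧
    ∀ d : ℕ, 1 ≤ d → ∃ η : ℝ, 0 < η ∧
      (∀ α : ℚ, α ≠ 0 → ∀ ε : ℝ, 0 < ε → ∃ C : ℝ, ∀ n : ℕ, 1 ≤ n →
        ∀ (f : Polynomial ℚ) (a K : ℕ), f.natDegree = d → f.leadingCoeff = α →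
        (∀ k : ℕ, ∃ z : ℤ, f.eval (k : ℚ) = z) → (prml n : ℝ) ^ (1 - η) ≤ (K : ℝ) ^ d →
        (((Ioc a (a + K)).filter fun k : ℕ => ∃ m ∈ evensIn (n + 1), f.eval (k : ℚ) = (m : ℚ) ∧
          Exceptional c ε r n m).card : ℝ) ≤ C * (K : ℝ) ^ (1 - η)) ∧
      ∀ f : Polynomial ℚ, f.natDegree = d → 0 < f.leadingCoeff →
        (∀ k : ℕ, ∃ z : ℤ, f.eval (k : ℚ) = z) → ∀ ε : ℝ, 0 < ε → ∀ A : ℕ,
        ∃ C : ℝ, ∀ K : ℕ, 2 ≤ K →
        (((Icc 1 K).filter fun k : ℕ => ∃ n : ℕ, 1 ≤ n ∧ ∃ m ∈ evensIn (n + 1),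
          f.eval (k : ℚ) = (m : ℚ) ∧ Exceptional c ε r n m).card : ℝ)
        ≤ C * (K : ℝ) ^ (1 - η) ∧
        (((Icc 1 K).filter fun k : ℕ => ∃ n : ℕ, 1 ≤ n ∧ ∃ m ∈ evensIn (n + 1),
          f.eval (k : ℚ) = (m : ℚ) ∧
          (primorialReps n m : ℝ) < c * (prml n / (Real.log (prml n)) ^ 2)).card : ℝ)
        ≤ C * (K / (Real.log K) ^ A) := by
  obtain ⟨δ, c, _, hδ, hδ1, hc, _, r, hr, _, h2⟩ := Pool.Agent.PS.main_fine2
  have hpoly := Pool.Agent.PS.Energy.poly_exc δ c r h2
  set c0 : ℝ := min c (1 / 512) with hc0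
  have hexc : ∀ ε n m, Exceptional c0 ε r n m → Pool.Agent.PS.Exc2 c ε r n m := by
    intro ε n m h h'
    apply h
    refine ⟨h'.1, h'.2.1, fun hrm => le_trans ?_ (h'.2.2 hrm)⟩
    have h3 : (0 : ℝ) ≤ (m : ℝ) / m.totient := by positivity
    have h4 : (0 : ℝ) ≤ prml n / (Real.log (prml n)) ^ 2 := by positivity
    gcongr
    exact min_le_left _ _
  refine ⟨c0, lt_min hc (by norm_num), r, hr, fun d hd => ?_⟩
  obtain ⟨η1, hη1, h3⟩ := Pool.Agent.PS.Energy.poly_interval δ c r hδ hδ1 hpoly d hd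
  obtain ⟨η2, hη2, h4⟩ := Pool.Agent.PS.Energy.poly_all δ c r hδ hδ1 hpoly d hd
  have hK0 : ∀ (η η' C : ℝ) (K : ℕ), η ≤ η' → 0 ≤ C → 1 ≤ K →
      C * (K : ℝ) ^ (1 - η') ≤ C * (K : ℝ) ^ (1 - η) := by
    intro η η' C K h hC hK
    have hKr : (1 : ℝ) ≤ K := by exact_mod_cast hK
    have := Real.rpow_le_rpow_of_exponent_le hKr (by linarith : 1 - η' ≤ 1 - η)
    gcongr
  refine ⟨min η1 η2, lt_min hη1 hη2, ?_, ?_⟩
  · intro α hα ε hε
    obtain ⟨C, hC⟩ := h3 α hα ε hε
    refine ⟨max C 0, fun n hn f a K hfd hfα hint hKn => ?_⟩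
    have hpr : (1 : ℝ) ≤ prml n := by
      have : 1 ≤ prml n := by have := le_prml n; omega
      exact_mod_cast this
    have hK : 1 ≤ K := by
      rcases Nat.eq_zero_or_pos K with h0 | h0
      · exfalso
        subst h0
        have h1 : (0 : ℝ) < (prml n : ℝ) ^ (1 - min η1 η2) := by positivity
        rw [Nat.cast_zero, zero_pow (by omega)] at hKn
        linarith
      · exact h0
    have hKn' : (prml n : ℝ) ^ (1 - η1) ≤ (K : ℝ) ^ d := by
      refine le_trans ?_ hKn
      apply Real.rpow_le_rpow_of_exponent_le hpr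
      have : min η1 η2 ≤ η1 := min_le_left _ _
      linarith
    refine le_trans ?_ ((hC n hn f a K hfd hfα hint hKn').trans ?_)
    · norm_cast
      apply card_le_card
      intro k hk
      simp only [mem_filter] at hk ⊢
      obtain ⟨hkI, m, hm, hfm, hex⟩ := hk
      exact ⟨hkI, m, hm, hfm, hexc ε n m hex⟩
    · refine le_trans ?_ (hK0 (min η1 η2) η1 (max C 0) K (min_le_left _ _) (le_max_right _ _) hK)
      have : (0 : ℝ) ≤ (K : ℝ) ^ (1 - η1) := by positivity
      gcongr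
      exact le_max_left _ _
  · intro f hfd hlc hint ε hε A
    obtain ⟨C, hC⟩ := h4 f hfd hlc hint ε hε
    obtain ⟨C', hC'⟩ := Poly.rat_poly f (by rw [hfd]; exact hd) hlc hint A
    refine ⟨max (max C C') 0, fun K hK => ⟨?_, ?_⟩⟩
    · refine le_trans ?_ ((hC K (by omega)).trans ?_)
      · norm_cast
        apply card_le_card
        intro k hk
        rw [mem_filter] at hk ⊢
        obtain ⟨hkI, n, hn, m, hm, hfm, hex⟩ := hk
        exact ⟨hkI, n, hn, m, hm, hfm, hexc ε n m hex⟩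
      · refine le_trans ?_ (hK0 (min η1 η2) η2 (max (max C C') 0) K (min_le_right _ _)
          (le_max_right _ _) (by omega))
        have : (0 : ℝ) ≤ (K : ℝ) ^ (1 - η2) := by positivity
        gcongr
        exact (le_max_left _ _).trans (le_max_left _ _)
    · have hKr : (2 : ℝ) ≤ K := by exact_mod_cast hK
      have hlogK : 0 < Real.log K := Real.log_pos (by linarith)
      refine le_trans ?_ ((hC' K hK).trans ?_)
      · norm_cast
        apply card_le_card
        intro k hk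
        rw [mem_filter] at hk ⊢
        obtain ⟨hkI, n, hn, m, hm, hfm, hlt⟩ := hk
        refine ⟨hkI, n, hn, m, hm, hfm, lt_of_lt_of_le hlt ?_⟩
        have h4 : (0 : ℝ) ≤ prml n / (Real.log (prml n)) ^ 2 := by positivity
        gcongr
        exact min_le_right _ _
      · have : (0 : ℝ) ≤ (K : ℝ) / (Real.log K) ^ A := by positivity
        gcongr
        exact (le_max_right _ _).trans (le_max_left _ _)

end Pool.Agent.Results.MP_484fb8_nt.PolynomialPowerSaving
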