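import Mathlib
import Pool.Agent.Work.MP_484fb8_nt.Defs
import Pool.Agent.Work.MP_484fb8_thin.En2

/-!
# Thin sets of primes in primorial intervals, arbitrary weights

Q1 with `p` and `q` confined to thin subsets `A` of `𝒫_n` and `B` of `𝒫_n ∪ 𝒫_{n+1}`: the exceptions
have a power saving for every weight in terms of its additive energies, for one pair of sets `A, B`,
and Chen's theorem holds for every `m ∈ ℰ_{n+1}` with the prime in `A`.
-/

set_option autoImplicit false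

open Finset Pool.Agent.Work.MP_484fb8_nt

namespace Pool.Agent.Results.MP_484fb8_nt.ThinEnergy

/-- `r` is a prime, or a product of two primes that are both at least `m ^ (1/8)`. -/
def PrimeOrProduct (m r : ℕ) : Prop :=
  r.Prime ∨ ∃ a b : ℕ, a.Prime ∧ b.Prime ∧ (m : ℝ) ^ (1 / 8 : ℝ) ≤ a ∧ (m : ℝ) ^ (1 / 8 : ℝ) ≤ b ∧
    r = a * b

open scoped Classical in
/-- The primes `p ∈ 𝒫_n` for which `r = m - p` lies in `ℐ_n ∪ ℐ_{n+1}` and is a prime or a product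
of two primes that are both at least `m ^ (1/8)`. -/
noncomputable def chenPrimes (n m : ℕ) : Finset ℕ :=
  {p ∈ primesIn n | p ≤ m ∧ m - p ∈ primorialInterval n ∪ primorialInterval (n + 1) ∧
    PrimeOrProduct m (m - p)}

/-- The factor `∏_{p ∣ m, p > 2} (p - 1) / (p - 2) ≥ 1` of the Goldbach singular series. -/
noncomputable def singularFactor (m : ℕ) : ℝ :=
  ∏ p ∈ m.primeFactors.filter (fun p => 2 < p), (((p : ℝ) - 1) / ((p : ℝ) - 2))

/-- The additive energy of order `s` of a weight `w` on the even integers of `ℐ_{n+1}`: the sum of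
`w(a_1) ⋯ w(a_s) w(b_1) ⋯ w(b_s)` over all `a_i, b_i ∈ ℰ_{n+1}` with `a_1 + ⋯ + a_s = b_1 + ⋯ + b_s`. -/
noncomputable def energy (n s : ℕ) (w : ℕ → ℝ) : ℝ :=
  ∑ a ∈ Fintype.piFinset (fun _ : Fin s => evensIn (n + 1)),
    ∑ b ∈ Fintype.piFinset (fun _ : Fin s => evensIn (n + 1)),
      if ∑ i, a i = ∑ i, b i then (∏ i, w (a i)) * ∏ i, w (b i) else 0

open scoped Classical in
/-- There are absolute `δ, c, C > 0`, an `n₀` and integers `r(n)`, growing faster than every power of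
`log #(n+1)`, such that the following holds; `𝒬 = 𝒫_n ∪ 𝒫_{n+1}`, `G(m) = (m/φ(m)) #(n)/(log #(n))^2`.

1. For all `n ≥ 1` and `α, β ∈ (0, 1]` there are sets `A ⊆ 𝒫_n` and `B ⊆ 𝒬` with at most `2 α #𝒫_n`
and `2 β #𝒬` elements such that:

(i) if `n ≥ n₀` and `α #(n) ≥ C (log #(n+1))^3` then for EVERY `m ∈ ℰ_{n+1}` the set `A` contains at
least `c α S(m) #(n)/(log #(n))^2` primes `p` for which `m - p` is in `ℐ_n ∪ ℐ_{n+1}` and is a prime
or a product of two primes `≥ m ^ (1/8)`;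

(ii) if `α β #(n) ≥ C (log #(n+1))^3` then for every `s ≥ 1` and every weight `w ≥ 0` on `ℰ_{n+1}`
the total weight `T` of the `m` which `r(n)` does not divide and which have fewer than `c α β G(m)`
representations `m = p + q`, `p ∈ A`, `q ∈ B`, satisfies
`T ^ (2s) ≤ (C (log #(n+1))^4) ^ (2s) #(n)^(1-δ) E_s(w)`;

(iii) for every `ε > 0`, if `α β ≥ D(ε) #(n)^(ε-1)`, then the same holds, with a constant `C'(ε, s)` in
the place of `(C (log #(n+1))^4) ^ (2s)`, for the total weight of these `m` and of ALL the `m ∈ ℰ_{n+1}`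
with fewer than `α β #(n)^(1-ε)/8` representations.

2. For all `n ≥ 1` and `t ≥ 1` there are a set `A ⊆ 𝒫_n` of at most `C t log #(n)` primes and a set
`F ⊆ ℰ_{n+1}` with at most `e^(-t) #ℰ_{n+1}` elements (so that `F` is empty for `t > log #ℰ_{n+1}`) such
that, if `n ≥ n₀`, every `m ∈ ℰ_{n+1}` outside `F` is `a + s` with `a ∈ A` and `s ∈ ℐ_n ∪ ℐ_{n+1}` a prime
or a product of two primes `≥ m ^ (1/8)`; and the inequality of (ii) holds for the total weight of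
the `m` outside `F` which `r(n)` does not divide and which are not in `A + 𝒬`.

For `n ≥ n₀` the conditions of (i) and (ii) hold for `α = β = 1`. -/
theorem result : ∃ δ c C : ℝ, 0 < δ ∧ 0 < c ∧ 0 < C ∧
    ∃ (r : ℕ → ℕ) (n₀ : ℕ) (D : ℝ → ℝ) (C' : ℝ → ℕ → ℝ),
    (∀ A : ℕ, ∃ C' : ℝ, ∀ n : ℕ, 1 ≤ n → (Real.log (prml (n + 1))) ^ A ≤ C' * r n) ∧
    (∀ n, n₀ ≤ n → C * (Real.log (prml (n + 1))) ^ 3 ≤ prml n) ∧
    (∀ n : ℕ, 1 ≤ n → ∀ α β : ℝ, 0 < α → α ≤ 1 → 0 < β → β ≤ 1 →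
      ∃ A ⊆ primesIn n, ∃ B ⊆ primesIn n ∪ primesIn (n + 1),
        (#A : ℝ) ≤ 2 * (α * #(primesIn n)) ∧
        (#B : ℝ) ≤ 2 * (β * #(primesIn n ∪ primesIn (n + 1))) ∧
        (n₀ ≤ n → C * (Real.log (prml (n + 1))) ^ 3 ≤ α * prml n → ∀ m ∈ evensIn (n + 1),
          c * (α * (singularFactor m * (prml n / (Real.log (prml n)) ^ 2)))
            ≤ (#(A ∩ chenPrimes n m) : ℝ)) ∧
        (C * (Real.log (prml (n + 1))) ^ 3 ≤ α * β * prml n →
          ∀ s : ℕ, 1 ≤ s → ∀ w : ℕ → ℝ, (∀ m ∈ evensIn (n + 1), 0 ≤ w m) →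
          (∑ m ∈ (evensIn (n + 1)).filter (fun m => ¬ r n ∣ m ∧
              (#{z ∈ A ×ˢ B | z.1 + z.2 = m} : ℝ) <
                c * (α * β * (((m : ℝ) / m.totient) * (prml n / (Real.log (prml n)) ^ 2)))),
            w m) ^ (2 * s)
          ≤ (C * (Real.log (prml (n + 1))) ^ 4) ^ (2 * s) * (prml n : ℝ) ^ (1 - δ)
            * energy n s w) ∧
        (∀ ε : ℝ, 0 < ε → D ε * (prml n : ℝ) ^ (ε - 1) ≤ α * β →
          ∀ s : ℕ, 1 ≤ s → ∀ w : ℕ → ℝ, (∀ m ∈ evensIn (n + 1), 0 ≤ w m) →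
          (∑ m ∈ (evensIn (n + 1)).filter (fun m =>
              (#{z ∈ A ×ˢ B | z.1 + z.2 = m} : ℝ) < α * β * (1 / 8 * (prml n : ℝ) ^ (1 - ε)) ∨
              (¬ r n ∣ m ∧ (#{z ∈ A ×ˢ B | z.1 + z.2 = m} : ℝ) <
                c * (α * β * (((m : ℝ) / m.totient) * (prml n / (Real.log (prml n)) ^ 2))))),
            w m) ^ (2 * s)
          ≤ C' ε s * (prml n : ℝ) ^ (1 - δ) * energy n s w)) ∧
    (∀ n : ℕ, 1 ≤ n → ∀ t : ℝ, 1 ≤ t → ∃ A ⊆ primesIn n, ∃ F ⊆ evensIn (n + 1),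
      (#A : ℝ) ≤ C * (t * Real.log (prml n)) ∧
      (#F : ℝ) ≤ Real.exp (-t) * #(evensIn (n + 1)) ∧
      (n₀ ≤ n → ∀ m ∈ evensIn (n + 1), m ∉ F → ∃ a ∈ A,
        ∃ s ∈ primorialInterval n ∪ primorialInterval (n + 1), m = a + s ∧ PrimeOrProduct m s) ∧
      ∀ s : ℕ, 1 ≤ s → ∀ w : ℕ → ℝ, (∀ m ∈ evensIn (n + 1), 0 ≤ w m) →
        (∑ m ∈ (evensIn (n + 1)).filter (fun m => m ∉ F ∧ ¬ r n ∣ m ∧
            ¬ ∃ a ∈ A, ∃ q ∈ primesIn n ∪ primesIn (n + 1), m = a + q), w m) ^ (2 * s)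
        ≤ (C * (Real.log (prml (n + 1))) ^ 4) ^ (2 * s) * (prml n : ℝ) ^ (1 - δ)
          * energy n s w) := by
  have h1 : chenPrimes = Pool.Agent.Thin.chenPrimes := rfl
  have h2 : singularFactor = Pool.Agent.Thin.singularFactor := rfl
  have h3 : PrimeOrProduct = Pool.Agent.Thin.PrimeOrProduct := rfl
  have h4 : energy = fun n s w => Pool.Agent.PS.energy s (evensIn (n + 1)) w := rfl
  rw [h1, h2, h3, h4]
  exact Pool.Agent.Thin.main3

end Pool.Agent.Results.MP_484fb8_nt.ThinEnergy
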