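import Mathlib
import Pool.Agent.Work.MP_484fb8_nt.Defs
import Pool.Agent.Work.MP_484fb8_tp.All

set_option autoImplicit false

open Finset Pool.Agent.Work.MP_484fb8_nt

namespace Pool.Agent.Results.MP_484fb8_nt.TypicalPowers

/-- `m = p + q` with `p ∈ 𝒫_n` and `q ∈ 𝒫_n ∪ 𝒫_{n+1}`, in at least `T` ways. -/
def Good (n m : ℕ) (T : ℝ) : Prop :=
  (∃ p ∈ primesIn n, ∃ q ∈ primesIn n ∪ primesIn (n + 1), m = p + q) ∧ T ≤ primorialReps n m

/-- The expected order of magnitude of the number of representations: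
`(m/φ(m)) #(n)/(log #(n))^2`. -/
noncomputable def expected (n m : ℕ) : ℝ :=
  ((m : ℝ) / m.totient) * (prml n / (Real.log (prml n)) ^ 2)

/-- The number of nonzero digits of `m` in base `g`. -/
def nonzeroDigits (g m : ℕ) : ℕ := ((Nat.digits g m).filter fun d => d ≠ 0).length

theorem expected_pos {n m : ℕ} (hn : 1 ≤ n) (hm : prml n ≤ 2 * m) : 0 < expected n m := by
  unfold expected
  have h2 : 2 ≤ prml n := by
    obtain ⟨j, rfl⟩ : ∃ j, n = j + 1 := ⟨n - 1, by omega⟩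
    have h1 : 0 < prml j := Finset.prod_pos fun i _ => (Nat.prime_nth_prime i).pos
    have h3 : prml (j + 1) = prml j * Nat.nth Nat.Prime j := Finset.prod_range_succ _ _
    have h4 := (Nat.prime_nth_prime j).two_le
    rw [h3]
    nlinarith
  have hm0 : 0 < m := by omega
  have h3 : (0 : ℝ) < (m : ℝ) := by exact_mod_cast hm0
  have h4 : (0 : ℝ) < (m.totient : ℝ) := by exact_mod_cast Nat.totient_pos.2 hm0
  have h5 : (0 : ℝ) < prml n := by exact_mod_cast (by omega : 0 < prml n)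
  have h6 : 0 < Real.log (prml n) := Real.log_pos (by exact_mod_cast (by omega : 1 < prml n))
  positivity

theorem lt_of_not_good {n m : ℕ} {T : ℝ} (hT : 0 < T) (h : ¬ Good n m T) :
    (primorialReps n m : ℝ) < T := by
  by_contra hle
  push Not at hle
  apply h
  refine ⟨?_, hle⟩
  have h1 : (0 : ℝ) < primorialReps n m := lt_of_lt_of_le hT hle
  have h2 : 0 < primorialReps n m := by exact_mod_cast h1
  unfold primorialReps at h2
  rw [Finset.card_pos] at h2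
  obtain ⟨⟨p, q⟩, hz⟩ := h2
  rw [mem_filter, mem_product] at hz
  exact ⟨p, hz.1.1, q, hz.1.2, hz.2.symm⟩

open scoped Classical in
/-- There is an absolute constant `c > 0` with the following properties.

(1) For all `G`, `B` there are `κ > 0` and `C`, and for every `A` a constant `C'`, such that, for all
`n ≥ 1`, `k ≥ 0`, all bases `2 ≤ g_i ≤ G`, all integer coefficients `1 ≤ |b_i| ≤ B` and EVERY integer
`N`: for all but a proportion `C exp (-κ k) + C'/(log #(n))^A` of the vectors `v` of exponents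
`1 ≤ v_i ≤ log_{g_i} #(n+1)`, the integer `m = N + ∑ b_i g_i^(v_i)`, if it is even and
`#(n)/2 ≤ m ≤ #(n+1) + 1`, is `p + q` with `p ∈ 𝒫_n`, `q ∈ 𝒫_n ∪ 𝒫_{n+1}` in at least
`c (m/φ(m)) #(n)/(log #(n))^2` ways.

(2) For every base `g ≥ 2` there are `κ > 0` and `C`, and for every `A` a constant `C'`, such that, for
all `n ≥ 1` and `k ≤ κ log #(n)`, the same holds for all but a proportion
`C exp (-κ k) + C'/(log #(n))^A` of the `m ∈ ℰ_{n+1}` with exactly `k` nonzero digits in base `g`.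

(3) For every `g ≥ 2` there is `K` such that, for every `n ≥ 1`, EVERY `m ∈ ℰ_{n+1}` is
`p + q` plus at most `K` powers of `g`, with `p ∈ 𝒫_n` and `q ∈ 𝒫_n ∪ 𝒫_{n+1}`. -/
theorem result : ∃ c : ℝ, 0 < c ∧
    (∀ G B : ℕ, ∃ κ C : ℝ, 0 < κ ∧ ∀ A : ℕ, ∃ C' : ℝ, ∀ n k : ℕ, 1 ≤ n →
      ∀ (g : Fin k → ℕ) (b : Fin k → ℤ) (N : ℤ),
      (∀ i, 2 ≤ g i ∧ g i ≤ G ∧ b i ≠ 0 ∧ |b i| ≤ B) →
      (((Fintype.piFinset fun i => Icc 1 (Nat.log (g i) (prml (n + 1)))).filter fun v =>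
          ∃ m : ℕ, (m : ℤ) = N + ∑ i, b i * (g i : ℤ) ^ v i ∧ Even m ∧ prml n ≤ 2 * m ∧
            m ≤ prml (n + 1) + 1 ∧ ¬ Good n m (c * expected n m)).card : ℝ)
        ≤ (C * Real.exp (-(κ * k)) + C' / (Real.log (prml n)) ^ A) *
          ∏ i, (Nat.log (g i) (prml (n + 1)) : ℝ)) ∧
    (∀ g : ℕ, 2 ≤ g → ∃ κ C : ℝ, 0 < κ ∧ ∀ A : ℕ, ∃ C' : ℝ, ∀ n k : ℕ, 1 ≤ n →
      (k : ℝ) ≤ κ * Real.log (prml n) →
      (((evensIn (n + 1)).filter fun m =>
          nonzeroDigits g m = k ∧ ¬ Good n m (c * expected n m)).card : ℝ)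
        ≤ (C * Real.exp (-(κ * k)) + C' / (Real.log (prml n)) ^ A) *
          (((evensIn (n + 1)).filter fun m => nonzeroDigits g m = k).card : ℝ)) ∧
    (∀ g : ℕ, 2 ≤ g → ∃ K : ℕ, ∀ n : ℕ, 1 ≤ n → ∀ m ∈ evensIn (n + 1),
      ∃ p ∈ primesIn n, ∃ q ∈ primesIn n ∪ primesIn (n + 1),
        ∃ k ≤ K, ∃ v : Fin k → ℕ, m = p + q + ∑ i, g ^ v i) := by
  obtain ⟨c, hc, h1, h2, h3⟩ := Pool.TP.main
  refine ⟨c, hc, fun G B => ?_, fun g hg => ?_, h3⟩
  · obtain ⟨κ, C, hκ, hA⟩ := h1 G B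
    refine ⟨κ, C, hκ, fun A => ?_⟩
    obtain ⟨C', hC'⟩ := hA A
    refine ⟨C', fun n k hn g b N hgb => le_trans ?_ (hC' n k g b N hn hgb)⟩
    rw [Nat.cast_le]
    apply card_le_card
    intro v hv
    rw [mem_filter, Fintype.mem_piFinset] at hv
    obtain ⟨hv1, m, hm1, hm2, hm3, hm4, hm5⟩ := hv
    rw [mem_filter, Pool.TP.mem_bx]
    refine ⟨fun i => mem_Icc.1 (hv1 i), m, hm1, hm2, hm3, hm4, ?_⟩
    have h := lt_of_not_good (mul_pos hc (expected_pos hn hm3)) hm5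
    unfold expected at h
    rw [← mul_assoc] at h
    exact h
  · obtain ⟨κ, C, hκ, hA⟩ := h2 g hg
    refine ⟨κ, C, hκ, fun A => ?_⟩
    obtain ⟨C', hC'⟩ := hA A
    refine ⟨C', fun n k hn hk => le_trans ?_ (hC' n k hn hk)⟩
    rw [Nat.cast_le]
    apply card_le_card
    intro m hm
    rw [mem_filter] at hm ⊢
    obtain ⟨hm1, hm2, hm3⟩ := hm
    refine ⟨hm1, hm2, ?_⟩
    have hmE := hm1
    unfold evensIn primorialInterval at hmE
    rw [mem_filter, mem_Icc, Nat.add_sub_cancel] at hmE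
    obtain ⟨⟨hm4, hm5⟩, hev⟩ := hmE
    have hm6 : prml n ≤ 2 * m := by omega
    refine ⟨hev, hm6, hm5, ?_⟩
    have h := lt_of_not_good (mul_pos hc (expected_pos hn hm6)) hm3
    unfold expected at h
    rw [← mul_assoc] at h
    exact h

end Pool.Agent.Results.MP_484fb8_nt.TypicalPowers
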